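import Pool.Agent.W_868bb7_h16c.CatA
import Pool.Agent.W_MP_868bb7_ag.Shuffle

set_option autoImplicit false

/-!
# Separating the even and the odd strands of `M^{⊗ 2n}`
-/

namespace T7

open CategoryTheory MonoidalCategory Equiv Pool.Agent.W_MP_868bb7_ag

universe v u w

variable {C : Type u} [Category.{v} C] [MonoidalCategory C] [SymmetricCategory C]

/-- the even strands and the odd strands of `M^{⊗ 2n}` -/
def sep (M : C) : (n : ℕ) → (pow M (2 * n) ⟶ pow M n ⊗ pow M n)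
  | 0 => (λ_ (𝟙_ C)).inv
  | n + 1 => (α_ M M (pow M (2 * n))).inv ≫ (M ⊗ M) ◁ sep M n ≫
      tensorμ M M (pow M n) (pow M n)

/-- the inverse of `sep` -/
def unsep (M : C) : (n : ℕ) → (pow M n ⊗ pow M n ⟶ pow M (2 * n))
  | 0 => (λ_ (𝟙_ C)).hom
  | n + 1 => tensorδ M M (pow M n) (pow M n) ≫ (M ⊗ M) ◁ unsep M n ≫
      (α_ M M (pow M (2 * n))).hom

theorem BipA_inv (M : C) {P Q : C} (s : P ⟶ Q ⊗ Q) (t : Q ⊗ Q ⟶ P) (h : t ≫ s = 𝟙 _) :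
    (tensorδ M M Q Q ≫ (M ⊗ M) ◁ t ≫ (α_ M M P).hom) ≫
      (α_ M M P).inv ≫ (M ⊗ M) ◁ s ≫ tensorμ M M Q Q = 𝟙 _ := by
  simp only [Category.assoc, Iso.hom_inv_id_assoc]
  rw [← whiskerLeft_comp_assoc, h, whiskerLeft_id, Category.id_comp, tensorδ_tensorμ]

theorem BipA_inv' (M : C) {P Q : C} (s : P ⟶ Q ⊗ Q) (t : Q ⊗ Q ⟶ P) (h : s ≫ t = 𝟙 _) :
    ((α_ M M P).inv ≫ (M ⊗ M) ◁ s ≫ tensorμ M M Q Q) ≫
      (tensorδ M M Q Q ≫ (M ⊗ M) ◁ t ≫ (α_ M M P).hom) = 𝟙 _ := by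
  simp only [Category.assoc, tensorμ_tensorδ_assoc]
  rw [← whiskerLeft_comp_assoc, h, whiskerLeft_id, Category.id_comp, Iso.inv_hom_id]

theorem unsep_sep (M : C) (n : ℕ) : unsep M n ≫ sep M n = 𝟙 _ := by
  induction n with
  | zero => exact Iso.hom_inv_id _
  | succ n ih => exact BipA_inv M _ _ ih

theorem sep_unsep (M : C) (n : ℕ) : sep M n ≫ unsep M n = 𝟙 _ := by
  induction n with
  | zero => exact Iso.inv_hom_id _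
  | succ n ih => exact BipA_inv' M _ _ ih

theorem BipA_shift (M : C) {P Q : C} (s : P ⟶ Q ⊗ Q) (a : P ⟶ P) (b : Q ⟶ Q)
    (h : a ≫ s = s ≫ Q ◁ b) :
    M ◁ (M ◁ a) ≫ (α_ M M P).inv ≫ (M ⊗ M) ◁ s ≫ tensorμ M M Q Q =
      ((α_ M M P).inv ≫ (M ⊗ M) ◁ s ≫ tensorμ M M Q Q) ≫ (M ⊗ Q) ◁ (M ◁ b) := by
  have h1 : (M ⊗ M) ◁ (Q ◁ b) ≫ tensorμ M M Q Q =
      tensorμ M M Q Q ≫ (M ⊗ Q) ◁ (M ◁ b) := by
    have h2 := tensorμ_natural_right M M (𝟙 Q) b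
    simpa using h2
  rw [associator_inv_naturality_right_assoc, ← whiskerLeft_comp_assoc, h,
    whiskerLeft_comp_assoc, h1]
  simp only [Category.assoc]

/-- exchange of the second and the fourth factor -/
theorem BipA_X13 (M R : C) :
    (M ◁ sw M (M ⊗ R) ≫ M ◁ (M ◁ sw M R) ≫ M ◁ sw M (M ⊗ R)) ≫
      (α_ M M (M ⊗ (M ⊗ R))).inv ≫ (M ⊗ M) ◁ (α_ M M R).inv ≫
      (α_ (M ⊗ M) (M ⊗ M) R).inv ≫ tensorμ M M M M ▷ R =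
    (α_ M M (M ⊗ (M ⊗ R))).inv ≫ (M ⊗ M) ◁ (α_ M M R).inv ≫
      (α_ (M ⊗ M) (M ⊗ M) R).inv ≫ (tensorμ M M M M ≫ (M ⊗ M) ◁ (β_ M M).hom) ▷ R := by
  have h0 : (β_ M M).hom ≫ (β_ M M).hom = 𝟙 _ := SymmetricCategory.symmetry M M
  calc _ = 𝟙 _ ⊗≫ M ◁ (β_ M M).hom ▷ (M ⊗ R) ⊗≫ (M ⊗ M) ◁ (β_ M M).hom ▷ R ⊗≫
        M ◁ ((β_ M M).hom ≫ (β_ M M).hom) ▷ (M ⊗ R) ⊗≫ 𝟙 _ := by
        simp only [sw, tensorμ]
        monoidal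
    _ = _ := by
        rw [h0]
        simp only [tensorμ]
        monoidal

/-- the shuffle of two more strands followed by the exchange of the odd ones -/
theorem BipA_sw (M : C) {R P : C} (s : R ⟶ P ⊗ P) :
    (M ◁ sw M (M ⊗ R) ≫ M ◁ (M ◁ sw M R) ≫ M ◁ sw M (M ⊗ R)) ≫
      (α_ M M (M ⊗ (M ⊗ R))).inv ≫ (M ⊗ M) ◁ ((α_ M M R).inv ≫ (M ⊗ M) ◁ s ≫
        tensorμ M M P P) ≫ tensorμ M M (M ⊗ P) (M ⊗ P) =
      ((α_ M M (M ⊗ (M ⊗ R))).inv ≫ (M ⊗ M) ◁ ((α_ M M R).inv ≫ (M ⊗ M) ◁ s ≫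
        tensorμ M M P P) ≫ tensorμ M M (M ⊗ P) (M ⊗ P)) ≫ (M ⊗ (M ⊗ P)) ◁ sw M P := by
  have hs : (α_ M M (M ⊗ (M ⊗ R))).inv ≫ (M ⊗ M) ◁ ((α_ M M R).inv ≫ (M ⊗ M) ◁ s ≫
        tensorμ M M P P) ≫ tensorμ M M (M ⊗ P) (M ⊗ P) =
      ((α_ M M (M ⊗ (M ⊗ R))).inv ≫ (M ⊗ M) ◁ (α_ M M R).inv ≫
        (α_ (M ⊗ M) (M ⊗ M) R).inv ≫ tensorμ M M M M ▷ R) ≫
        ((M ⊗ M) ⊗ (M ⊗ M)) ◁ s ≫ tensorμ (M ⊗ M) (M ⊗ M) P P ≫
          ((α_ M M P).hom ⊗ₘ (α_ M M P).hom) := by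
    have h1 : (M ⊗ M) ◁ tensorμ M M P P ≫ tensorμ M M (M ⊗ P) (M ⊗ P) =
        (α_ (M ⊗ M) (M ⊗ M) (P ⊗ P)).inv ≫ tensorμ M M M M ▷ (P ⊗ P) ≫
        tensorμ (M ⊗ M) (M ⊗ M) P P ≫ ((α_ M M P).hom ⊗ₘ (α_ M M P).hom) := shuf_eq M M P P
    simp only [whiskerLeft_comp, Category.assoc]
    rw [h1, associator_inv_naturality_right_assoc, whisker_exchange_assoc]
  rw [hs]
  simp only [← Category.assoc]
  have h2 := BipA_X13 M R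
  have h3 : ((M ⊗ M) ◁ (β_ M M).hom) ▷ (P ⊗ P) ≫ tensorμ (M ⊗ M) (M ⊗ M) P P =
      tensorμ (M ⊗ M) (M ⊗ M) P P ≫ (((M ⊗ M) ⊗ P) ◁ ((β_ M M).hom ▷ P)) := by
    have h4 := tensorμ_natural_left (𝟙 (M ⊗ M)) (β_ M M).hom P P
    simpa using h4
  have h5 : (((M ⊗ M) ⊗ P) ◁ ((β_ M M).hom ▷ P)) ≫ ((α_ M M P).hom ⊗ₘ (α_ M M P).hom) =
      ((α_ M M P).hom ⊗ₘ (α_ M M P).hom) ≫ (M ⊗ (M ⊗ P)) ◁ sw M P := by
    rw [← id_tensorHom, ← id_tensorHom, tensorHom_comp_tensorHom, tensorHom_comp_tensorHom]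
    simp [sw]
  calc _ = ((M ◁ sw M (M ⊗ R) ≫ M ◁ (M ◁ sw M R) ≫ M ◁ sw M (M ⊗ R)) ≫
        (α_ M M (M ⊗ (M ⊗ R))).inv ≫ (M ⊗ M) ◁ (α_ M M R).inv ≫
        (α_ (M ⊗ M) (M ⊗ M) R).inv ≫ tensorμ M M M M ▷ R) ≫
        ((M ⊗ M) ⊗ (M ⊗ M)) ◁ s ≫ tensorμ (M ⊗ M) (M ⊗ M) P P ≫
          ((α_ M M P).hom ⊗ₘ (α_ M M P).hom) := by
        simp only [Category.assoc]
    _ = _ := by
        rw [h2]
        simp only [comp_whiskerRight, Category.assoc]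
        rw [← whisker_exchange_assoc, reassoc_of% h3, h5]

theorem BipA_shiftswap {n : ℕ} : shift (swap (0 : Fin (n + 2)) 1) =
    swap (1 : Fin (n + 3)) 2 := by
  apply Equiv.ext
  intro x
  refine Fin.cases ?_ (fun i => ?_) x
  · rw [shift_zero]
    refine (swap_apply_of_ne_of_ne ?_ ?_).symm
    · exact (Fin.succ_ne_zero (0 : Fin (n + 2))).symm
    · exact (Fin.succ_ne_zero (1 : Fin (n + 2))).symm
  · rw [shift_succ]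
    have h1 : (1 : Fin (n + 3)) = Fin.succ 0 := rfl
    have h2 : (2 : Fin (n + 3)) = Fin.succ 1 := rfl
    rw [h1, h2, (Fin.succ_injective _).map_swap]

theorem act_X13 (M : C) (n : ℕ) :
    act M (n + 4) (shift (swap 0 1) * sh2 (swap 0 1) * shift (swap 0 1)) =
      M ◁ sw M (M ⊗ pow M n) ≫ M ◁ (M ◁ sw M (pow M n)) ≫ M ◁ sw M (M ⊗ pow M n) := by
  rw [act_mul, act_mul, act_shift, act_swap, sh2, act_shift, act_shift, act_swap]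
  rfl

theorem act_X13_sep (M : C) (n : ℕ) :
    act M (2 * (n + 2)) (shift (swap 0 1) * sh2 (swap 0 1) * shift (swap 0 1)) ≫
      sep M (n + 2) = sep M (n + 2) ≫ pow M (n + 2) ◁ act M (n + 2) (swap 0 1) := by
  rw [act_swap]
  refine Eq.trans (congrArg (· ≫ sep M (n + 2)) (act_X13 M (2 * n))) ?_
  exact BipA_sw M (sep M n)

theorem act_sh2_sep (M : C) (n : ℕ) (e : Perm (Fin (2 * n))) (s : Perm (Fin n))
    (h : act M (2 * n) e ≫ sep M n = sep M n ≫ pow M n ◁ act M n s) :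
    act M (2 * (n + 1)) (sh2 e) ≫ sep M (n + 1) =
      sep M (n + 1) ≫ pow M (n + 1) ◁ act M (n + 1) (shift s) := by
  rw [act_shift]
  refine Eq.trans (congrArg (· ≫ sep M (n + 1)) (act_sh2 M e)) ?_
  exact BipA_shift M _ _ _ h

end T7
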