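import Pool.Agent.W_868bb7_h54.BipA
import Pool.Agent.W_868bb7_h16c.CatC
import Pool.Agent.W_868bb7_t7n.Defs

set_option autoImplicit false

/-!
# Bipartite matchings on `Fin (2 * n)`: even points against odd points
-/

namespace T7

open Equiv Pool.Agent.W_MP_868bb7_ag

/-- the even points and the odd points -/
def ee (n : ℕ) : Fin n ⊕ Fin n ≃ Fin (2 * n) where
  toFun x := match x with
    | Sum.inl i => ⟨2 * i.val, by omega⟩
    | Sum.inr i => ⟨2 * i.val + 1, by omega⟩
  invFun x := if x.val % 2 = 0 then Sum.inl ⟨x.val / 2, by omega⟩ else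
    Sum.inr ⟨x.val / 2, by omega⟩
  left_inv x := by
    rcases x with i | i
    · simp
    · have h1 : ¬ (2 * i.val + 1) % 2 = 0 := by omega
      simp only [h1, if_false]
      congr 1
      ext
      simp only
      omega
  right_inv x := by
    by_cases h : x.val % 2 = 0
    · simp only [h, if_true]
      ext
      simp only
      omega
    · simp only [h, if_false]
      ext
      simp only
      omega

theorem ee_inl (n : ℕ) (i : Fin n) : (ee n (Sum.inl i)).val = 2 * i.val := rfl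

theorem ee_inr (n : ℕ) (i : Fin n) : (ee n (Sum.inr i)).val = 2 * i.val + 1 := rfl

/-- `s` on the odd points -/
def dup {n : ℕ} (s : Perm (Fin n)) : Perm (Fin (2 * n)) :=
  (ee n).permCongr (sumCongr 1 s)

theorem dup_inl {n : ℕ} (s : Perm (Fin n)) (i : Fin n) :
    dup s (ee n (Sum.inl i)) = ee n (Sum.inl i) := by
  unfold dup
  rw [Equiv.permCongr_apply, Equiv.symm_apply_apply]
  rfl

theorem dup_inr {n : ℕ} (s : Perm (Fin n)) (i : Fin n) :
    dup s (ee n (Sum.inr i)) = ee n (Sum.inr (s i)) := by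
  unfold dup
  rw [Equiv.permCongr_apply, Equiv.symm_apply_apply]
  rfl

theorem dup_ext {n : ℕ} (g : Perm (Fin (2 * n))) (s : Perm (Fin n))
    (h1 : ∀ i, g (ee n (Sum.inl i)) = ee n (Sum.inl i))
    (h2 : ∀ i, g (ee n (Sum.inr i)) = ee n (Sum.inr (s i))) : dup s = g := by
  apply Equiv.ext
  intro x
  obtain ⟨y, rfl⟩ := (ee n).surjective x
  rcases y with i | i
  · rw [dup_inl, h1]
  · rw [dup_inr, h2]

theorem dup_one (n : ℕ) : dup (1 : Perm (Fin n)) = 1 :=
  dup_ext _ _ (fun _ => rfl) (fun _ => rfl)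

theorem dup_mul {n : ℕ} (s t : Perm (Fin n)) : dup (s * t) = dup s * dup t := by
  apply dup_ext
  · intro i
    rw [Perm.mul_apply, dup_inl, dup_inl]
  · intro i
    rw [Perm.mul_apply, dup_inr, dup_inr]
    rfl

theorem dup_inv {n : ℕ} (s : Perm (Fin n)) : dup s⁻¹ = (dup s)⁻¹ := by
  rw [eq_inv_iff_mul_eq_one, ← dup_mul, inv_mul_cancel, dup_one]

theorem ee_zero_inl (n : ℕ) : ee (n + 1) (Sum.inl 0) = (0 : Fin (2 * n + 2)) := rfl

theorem ee_zero_inr (n : ℕ) : ee (n + 1) (Sum.inr 0) = (1 : Fin (2 * n + 2)) := rfl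

theorem ee_succ_inl (n : ℕ) (i : Fin n) :
    ee (n + 1) (Sum.inl i.succ) = ((ee n (Sum.inl i)).succ.succ : Fin (2 * n + 2)) := by
  apply Fin.ext
  rw [Fin.val_succ, Fin.val_succ, ee_inl, ee_inl, Fin.val_succ]
  ring

theorem ee_succ_inr (n : ℕ) (i : Fin n) :
    ee (n + 1) (Sum.inr i.succ) = ((ee n (Sum.inr i)).succ.succ : Fin (2 * n + 2)) := by
  apply Fin.ext
  rw [Fin.val_succ, Fin.val_succ, ee_inr, ee_inr, Fin.val_succ]
  ring

theorem dup_shift {n : ℕ} (s : Perm (Fin n)) : dup (shift s) = (sh2 (dup s) : Perm (Fin (2 * n + 2))) := by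
  apply dup_ext
  · intro i
    refine Fin.cases ?_ (fun i => ?_) i
    · rw [ee_zero_inl]
      exact sh2_zero _
    · rw [ee_succ_inl]
      refine (sh2_succ _ _).trans ?_
      rw [dup_inl]
  · intro i
    refine Fin.cases ?_ (fun i => ?_) i
    · rw [shift_zero, ee_zero_inr]
      exact sh2_one _
    · rw [shift_succ, ee_succ_inr, ee_succ_inr]
      refine (sh2_succ _ _).trans ?_
      rw [dup_inr]

theorem ms_ee_inl (n : ℕ) (i : Fin n) : ms n (ee n (Sum.inl i)) = ee n (Sum.inr i) := by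
  induction n with
  | zero => exact i.elim0
  | succ n ih =>
    refine Fin.cases ?_ (fun i => ?_) i
    · rw [ee_zero_inl, ee_zero_inr]
      exact ups_zero (ms n)
    · rw [ee_succ_inl, ee_succ_inr]
      refine (ups_succ (ms n) _).trans ?_
      rw [ih i]

theorem ms_ee_inr (n : ℕ) (i : Fin n) : ms n (ee n (Sum.inr i)) = ee n (Sum.inl i) := by
  rw [← ms_ee_inl, PM.inv]

/-- the standard matching is the bipartite matching of the identity -/
theorem map_ee_bip (n : ℕ) : PM.map (ee n) (T7n.bip 1) = ms n := by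
  ext1 x
  obtain ⟨y, rfl⟩ := (ee n).surjective x
  rw [PM.map_apply, Equiv.symm_apply_apply]
  rcases y with i | i
  · rw [ms_ee_inl]
    rfl
  · rw [ms_ee_inr]
    rfl

theorem map_ee_bip' {n : ℕ} (s : Perm (Fin n)) :
    PM.map (ee n) (T7n.bip s) = PM.map (dup s) (ms n) := by
  rw [← map_ee_bip]
  ext1 x
  obtain ⟨y, rfl⟩ := (ee n).surjective x
  have h : ∀ z, (dup s).symm (ee n z) = ee n (sumCongr 1 s⁻¹ z) := by
    intro z
    rw [Equiv.symm_apply_eq]
    rcases z with j | j
    · exact (dup_inl s j).symm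
    · have h1 : sumCongr (1 : Perm (Fin n)) s⁻¹ (Sum.inr j) = Sum.inr (s⁻¹ j) := rfl
      rw [h1, dup_inr]
      simp
  rw [PM.map_apply, PM.map_apply, PM.map_apply, h, Equiv.symm_apply_apply,
    Equiv.symm_apply_apply]
  rcases y with i | i
  · exact (dup_inr s i).symm
  · exact (dup_inl s (s⁻¹ i)).symm

theorem ee_one_inr (n : ℕ) : ee (n + 2) (Sum.inr 1) = (3 : Fin (2 * n + 4)) := rfl

theorem dup_swap {n : ℕ} : dup (swap (0 : Fin (n + 2)) 1) =
    (shift (swap 0 1) * sh2 (swap 0 1) * shift (swap 0 1) : Perm (Fin (2 * n + 4))) := by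
  have e1 : (shift (swap 0 1) : Perm (Fin (2 * n + 4))) = swap 1 2 := BipA_shiftswap
  have e2 : (sh2 (swap 0 1) : Perm (Fin (2 * n + 4))) = swap 2 3 := by
    unfold sh2
    rw [BipA_shiftswap]
    apply Equiv.ext
    intro x
    refine Fin.cases ?_ (fun i => ?_) x
    · rw [shift_zero]
      refine (swap_apply_of_ne_of_ne ?_ ?_).symm
      · exact (Fin.succ_ne_zero (1 : Fin (2 * n + 3))).symm
      · exact (Fin.succ_ne_zero (2 : Fin (2 * n + 3))).symm
    · rw [shift_succ]
      have h1 : (2 : Fin (2 * n + 4)) = Fin.succ 1 := rfl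
      have h2 : (3 : Fin (2 * n + 4)) = Fin.succ 2 := rfl
      rw [h1, h2, (Fin.succ_injective _).map_swap]
  have e3 : (swap 1 2 * swap 2 3 * swap 1 2 : Perm (Fin (2 * n + 4))) = swap 1 3 := by
    have h13 : (1 : Fin (2 * n + 4)) ≠ 3 :=
      (Fin.succ_injective _).ne (Fin.succ_ne_zero (1 : Fin (2 * n + 2))).symm
    have h23 : (2 : Fin (2 * n + 4)) ≠ 3 :=
      (Fin.succ_injective _).ne ((Fin.succ_injective _).ne
        (Fin.succ_ne_zero (0 : Fin (2 * n + 1))).symm)
    have h := Equiv.swap_apply_apply (swap (1 : Fin (2 * n + 4)) 2) 2 3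
    rw [swap_apply_right, swap_apply_of_ne_of_ne h13.symm h23.symm, swap_inv] at h
    exact h.symm
  rw [e1, e2, e3]
  have hv : ∀ z : Fin (n + 2) ⊕ Fin (n + 2), (ee (n + 2) z = (1 : Fin (2 * n + 4)) → z = Sum.inr 0) ∧
      (ee (n + 2) z = (3 : Fin (2 * n + 4)) → z = Sum.inr 1) := by
    intro z
    constructor
    · intro h
      exact (ee (n + 2)).injective (h.trans (ee_zero_inr (n + 1)).symm)
    · intro h
      exact (ee (n + 2)).injective (h.trans (ee_one_inr n).symm)
  apply dup_ext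
  · intro i
    refine swap_apply_of_ne_of_ne ?_ ?_
    · intro h
      exact absurd ((hv _).1 h) (by simp)
    · intro h
      exact absurd ((hv _).2 h) (by simp)
  · intro i
    have k1 : (1 : Fin (2 * n + 4)) = ee (n + 2) (Sum.inr 0) := rfl
    have k3 : (3 : Fin (2 * n + 4)) = ee (n + 2) (Sum.inr 1) := rfl
    rw [k1, k3, ← (ee (n + 2)).injective.map_swap, ← Sum.inr_injective.map_swap]

end T7
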