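import Pool.Agent.W_868bb7_h54.BipB
import Pool.Agent.W_868bb7_h16c.CatD

set_option autoImplicit false

/-!
# `sep` is equivariant; the pairing of the tensor powers is perfect
-/

namespace T7

open CategoryTheory MonoidalCategory Equiv Pool.Agent.W_MP_868bb7_ag

universe v u w

variable {C : Type u} [Category.{v} C] [MonoidalCategory C] [SymmetricCategory C]

theorem act_dup_sep (M : C) (n : ℕ) (s : Perm (Fin n)) :
    act M (2 * n) (dup s) ≫ sep M n = sep M n ≫ pow M n ◁ act M n s := by
  induction n with
  | zero =>
    have h1 : dup s = 1 := by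
      apply Equiv.ext
      intro x
      exact x.elim0
    have h2 : s = 1 := by
      apply Equiv.ext
      intro x
      exact x.elim0
    rw [h1, h2, act_one]
    refine (Category.id_comp _).trans ?_
    exact ((congrArg (fun t => sep M 0 ≫ t) (whiskerLeft_id (pow M 0) (pow M 0))).trans
      (Category.comp_id _)).symm
  | succ n ih =>
    have hs : s ∈ Submonoid.closure
        (Set.range fun i : Fin n => Equiv.swap i.castSucc i.succ) := by
      rw [Equiv.Perm.mclosure_swap_castSucc_succ]
      trivial
    induction hs using Submonoid.closure_induction_left with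
    | one => rw [dup_one, act_one, act_one, whiskerLeft_id, Category.id_comp, Category.comp_id]
    | mul_left x hx y _ ihy =>
      have hx' : act M (2 * (n + 1)) (dup x) ≫ sep M (n + 1) =
          sep M (n + 1) ≫ pow M (n + 1) ◁ act M (n + 1) x := by
        obtain ⟨i, rfl⟩ := hx
        cases n with
        | zero => exact i.elim0
        | succ n =>
          refine Fin.cases ?_ (fun i => ?_) i
          · have h1 : swap (Fin.castSucc (0 : Fin (n + 1))) (Fin.succ 0) = swap 0 1 := rfl
            simp only [h1]
            rw [dup_swap]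
            exact act_X13_sep M n
          · have h1 : swap i.succ.castSucc i.succ.succ = shift (swap i.castSucc i.succ) := by
              apply Equiv.ext
              intro x
              refine Fin.cases ?_ (fun j => ?_) x
              · rw [shift_zero, swap_apply_of_ne_of_ne]
                · rw [← Fin.succ_castSucc]
                  exact (Fin.succ_ne_zero _).symm
                · exact (Fin.succ_ne_zero _).symm
              · rw [shift_succ, ← Fin.succ_castSucc, (Fin.succ_injective _).map_swap]
            simp only [h1]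
            rw [dup_shift]
            exact act_sh2_sep M (n + 1) _ _ (ih _)
      rw [dup_mul, act_mul, act_mul, Category.assoc, hx', reassoc_of% ihy,
        whiskerLeft_comp]

variable {M T : C} (P : Pairing M T)

/-- the pairing of the tensor powers, values in `T^{⊗ n}` -/
def qn (n : ℕ) : pow M n ⊗ pow M n ⟶ pow T n := unsep M n ≫ qs P n

theorem BipC_aux (P : Pairing M T) {R Q Z : C} (u : Q ⊗ Q ⟶ R) (v : R ⟶ Z) :
    (tensorδ M M Q Q ≫ (M ⊗ M) ◁ u ≫ (α_ M M R).hom) ≫ (α_ M M R).inv ≫ (P.q ⊗ₘ v) =
      tensorδ M M Q Q ≫ (P.q ⊗ₘ (u ≫ v)) := by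
  simp only [Category.assoc, Iso.hom_inv_id_assoc]
  rw [← id_tensorHom, tensorHom_comp_tensorHom, Category.id_comp]

theorem qn_succ (n : ℕ) : qn P (n + 1) =
    tensorδ M M (pow M n) (pow M n) ≫ (P.q ⊗ₘ qn P n) :=
  BipC_aux P (unsep M n) (qs P n)

theorem unsep_qm (n : ℕ) (s : Perm (Fin n)) :
    unsep M n ≫ qm P n (PM.map (ee n) (T7n.bip s)) = pow M n ◁ act M n s⁻¹ ≫ qn P n := by
  rw [map_ee_bip', qm_ms_map, ← dup_inv]
  unfold qn
  have h := act_dup_sep M n s⁻¹
  have h1 : unsep M n ≫ act M (2 * n) (dup s⁻¹) =
      pow M n ◁ act M n s⁻¹ ≫ unsep M n := by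
    have h2 := congrArg (fun t => unsep M n ≫ t ≫ unsep M n) h
    simp only [Category.assoc, sep_unsep, Category.comp_id] at h2
    rw [h2, ← Category.assoc, unsep_sep, Category.id_comp]
  rw [← Category.assoc, h1, Category.assoc]

end T7
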