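import Pool.Agent.W_868bb7_h54.BipC

set_option autoImplicit false

/-!
# The pairing of the tensor powers is perfect
-/

namespace T7

open CategoryTheory MonoidalCategory Equiv Pool.Agent.W_MP_868bb7_ag

universe v u w

variable {C : Type u} [Category.{v} C] [MonoidalCategory C] [SymmetricCategory C]

theorem BipD_core {P1 Q1 P2 Q2 T1 T2 : C} (c1 : P1 ⊗ Q1 ⟶ T1) (c2 : P2 ⊗ Q2 ⟶ T2) :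
    (α_ P2 P1 (Q1 ⊗ Q2)).inv ≫ (β_ P2 P1).hom ▷ (Q1 ⊗ Q2) ≫
      (tensorδ P1 Q1 P2 Q2 ≫ (c1 ⊗ₘ c2)) ≫ (β_ T1 T2).hom =
    P2 ◁ ((α_ P1 Q1 Q2).inv ≫ c1 ▷ Q2 ≫ (β_ T1 Q2).hom) ≫ (α_ P2 Q2 T1).inv ≫ c2 ▷ T1 := by
  have hb : (β_ Q1 P2).inv = (β_ P2 Q1).hom := by
    rw [← cancel_epi (β_ Q1 P2).hom, Iso.hom_inv_id, SymmetricCategory.symmetry]
  have h1 : (α_ P2 P1 (Q1 ⊗ Q2)).inv ≫ (β_ P2 P1).hom ▷ (Q1 ⊗ Q2) ≫ tensorδ P1 Q1 P2 Q2 =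
      P2 ◁ (α_ P1 Q1 Q2).inv ≫ (α_ P2 (P1 ⊗ Q1) Q2).inv ≫ (β_ P2 (P1 ⊗ Q1)).hom ▷ Q2 ≫
        (α_ (P1 ⊗ Q1) P2 Q2).hom := by
    rw [BraidedCategory.braiding_tensor_right_hom]
    unfold tensorδ
    rw [hb]
    monoidal
  have h2 : (c1 ⊗ₘ c2) ≫ (β_ T1 T2).hom = (β_ (P1 ⊗ Q1) (P2 ⊗ Q2)).hom ≫ (c2 ⊗ₘ c1) :=
    BraidedCategory.braiding_naturality c1 c2
  have h3 : (β_ P2 (P1 ⊗ Q1)).hom ▷ Q2 ≫ (α_ (P1 ⊗ Q1) P2 Q2).hom ≫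
      (β_ (P1 ⊗ Q1) (P2 ⊗ Q2)).hom =
      (α_ P2 (P1 ⊗ Q1) Q2).hom ≫ P2 ◁ (β_ (P1 ⊗ Q1) Q2).hom ≫ (α_ P2 Q2 (P1 ⊗ Q1)).inv := by
    rw [BraidedCategory.braiding_tensor_right_hom (P1 ⊗ Q1) P2 Q2, Iso.hom_inv_id_assoc,
      ← comp_whiskerRight_assoc, SymmetricCategory.symmetry, id_whiskerRight,
      Category.id_comp]
  have h4 : P2 ◁ (c1 ▷ Q2 ≫ (β_ T1 Q2).hom) ≫ (α_ P2 Q2 T1).inv ≫ c2 ▷ T1 =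
      P2 ◁ (β_ (P1 ⊗ Q1) Q2).hom ≫ (α_ P2 Q2 (P1 ⊗ Q1)).inv ≫ (c2 ⊗ₘ c1) := by
    rw [BraidedCategory.braiding_naturality_left, whiskerLeft_comp, Category.assoc,
      associator_inv_naturality_right_assoc, tensorHom_def']
  simp only [Category.assoc]
  rw [reassoc_of% h1, h2, reassoc_of% h3, Iso.inv_hom_id_assoc]
  simp only [whiskerLeft_comp, Category.assoc] at h4 ⊢
  rw [h4]

variable [Preadditive C] [MonoidalPreadditive C]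

/-- perfectness of a product -/
theorem nd_prod {P1 Q1 P2 Q2 T1 T2 : C} (c1 : P1 ⊗ Q1 ⟶ T1) (c2 : P2 ⊗ Q2 ⟶ T2)
    (h1 : ∀ {A B : C} (F : A ⟶ Q1 ⊗ B), (P1 ◁ F) ≫ (α_ P1 Q1 B).inv ≫ c1 ▷ B = 0 → F = 0)
    (h2 : ∀ {A B : C} (F : A ⟶ Q2 ⊗ B), (P2 ◁ F) ≫ (α_ P2 Q2 B).inv ≫ c2 ▷ B = 0 → F = 0)
    {A B : C} (F : A ⟶ (Q1 ⊗ Q2) ⊗ B)
    (h : ((P1 ⊗ P2) ◁ F) ≫ (α_ (P1 ⊗ P2) (Q1 ⊗ Q2) B).inv ≫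
      (tensorδ P1 Q1 P2 Q2 ≫ (c1 ⊗ₘ c2)) ▷ B = 0) : F = 0 := by
  have e1 : F ≫ (α_ Q1 Q2 B).hom = 0 := by
    apply h1
    have e2 : (P1 ◁ (F ≫ (α_ Q1 Q2 B).hom) ≫ (α_ P1 Q1 (Q2 ⊗ B)).inv ≫ c1 ▷ (Q2 ⊗ B)) ≫
        (α_ T1 Q2 B).inv ≫ (β_ T1 Q2).hom ▷ B ≫ (α_ Q2 T1 B).hom = 0 := by
      apply h2
      have e3 : P2 ◁ ((P1 ◁ (F ≫ (α_ Q1 Q2 B).hom) ≫ (α_ P1 Q1 (Q2 ⊗ B)).inv ≫
          c1 ▷ (Q2 ⊗ B)) ≫ (α_ T1 Q2 B).inv ≫ (β_ T1 Q2).hom ▷ B ≫ (α_ Q2 T1 B).hom) ≫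
          (α_ P2 Q2 (T1 ⊗ B)).inv ≫ c2 ▷ (T1 ⊗ B) =
          (α_ P2 P1 A).inv ≫ (β_ P2 P1).hom ▷ A ≫ (((P1 ⊗ P2) ◁ F) ≫
          (α_ (P1 ⊗ P2) (Q1 ⊗ Q2) B).inv ≫
          (tensorδ P1 Q1 P2 Q2 ≫ (c1 ⊗ₘ c2)) ▷ B) ≫ (β_ T1 T2).hom ▷ B ≫
          (α_ T2 T1 B).hom := by
        have hc := BipD_core c1 c2
        calc _ = 𝟙 _ ⊗≫ (P2 ⊗ P1) ◁ F ⊗≫
              (P2 ◁ ((α_ P1 Q1 Q2).inv ≫ c1 ▷ Q2 ≫ (β_ T1 Q2).hom) ≫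
                (α_ P2 Q2 T1).inv ≫ c2 ▷ T1) ▷ B ⊗≫ 𝟙 _ := by monoidal
          _ = 𝟙 _ ⊗≫ ((P2 ⊗ P1) ◁ F ≫ (β_ P2 P1).hom ▷ ((Q1 ⊗ Q2) ⊗ B)) ⊗≫
              ((tensorδ P1 Q1 P2 Q2 ≫ (c1 ⊗ₘ c2)) ≫ (β_ T1 T2).hom) ▷ B ⊗≫ 𝟙 _ := by
              rw [← hc]
              generalize (tensorδ P1 Q1 P2 Q2 ≫ (c1 ⊗ₘ c2)) = E
              monoidal
          _ = _ := by
              rw [whisker_exchange]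
              generalize (tensorδ P1 Q1 P2 Q2 ≫ (c1 ⊗ₘ c2)) = E
              monoidal
      rw [e3, h, Limits.zero_comp, Limits.comp_zero, Limits.comp_zero]
    have e4 := congrArg (fun t => t ≫ (α_ Q2 T1 B).inv ≫ (β_ T1 Q2).inv ▷ B ≫
      (α_ T1 Q2 B).hom) e2
    simpa using e4
  have e5 := congrArg (fun t => t ≫ (α_ Q1 Q2 B).inv) e1
  simpa using e5

variable {M T : C} (P : Pairing M T)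

theorem q_nd {A B : C} (F : A ⟶ M ⊗ B) (h : M ◁ F ≫ (α_ M M B).inv ≫ P.q ▷ B = 0) :
    F = 0 := by
  apply T_faithful P
  have e : T ◁ F ≫ T ◁ (β_ M B).hom ≫ (α_ T B M).inv =
      P.c ▷ A ≫ (α_ M M A).hom ≫ M ◁ (β_ M A).hom ≫ (α_ M A M).inv ≫
        (M ◁ F ≫ (α_ M M B).inv ≫ P.q ▷ B) ▷ M := by
    have z := zig2 P
    have hn : (β_ M A).hom ≫ F ▷ M = M ◁ F ≫ (β_ M (M ⊗ B)).hom :=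
      (BraidedCategory.braiding_naturality_right M F).symm
    calc _ = 𝟙 _ ⊗≫ T ◁ F ⊗≫ (P.c ▷ M ≫ (α_ M M M).hom ≫ M ◁ (β_ M M).hom ≫
          (α_ M M M).inv ≫ P.q ▷ M) ▷ B ⊗≫ T ◁ (β_ M B).hom ⊗≫ 𝟙 _ := by
          rw [z]
          monoidal
      _ = 𝟙 _ ⊗≫ (T ◁ F ≫ P.c ▷ (M ⊗ B)) ⊗≫ M ◁ ((β_ M M).hom ▷ B) ⊗≫
          ((P.q ▷ (M ⊗ B)) ≫ T ◁ (β_ M B).hom) ⊗≫ 𝟙 _ := by monoidal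
      _ = 𝟙 _ ⊗≫ (P.c ▷ A ≫ (M ⊗ M) ◁ F) ⊗≫ M ◁ ((β_ M M).hom ▷ B) ⊗≫
          ((M ⊗ M) ◁ (β_ M B).hom ≫ (P.q ▷ (B ⊗ M))) ⊗≫ 𝟙 _ := by
          rw [whisker_exchange, whisker_exchange]
      _ = 𝟙 _ ⊗≫ P.c ▷ A ⊗≫ M ◁ (M ◁ F ≫ (β_ M (M ⊗ B)).hom) ⊗≫
          (P.q ▷ B) ▷ M := by
          rw [BraidedCategory.braiding_tensor_right_hom]
          monoidal
      _ = _ := by
          rw [← hn]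
          monoidal
  rw [h, MonoidalPreadditive.zero_whiskerRight, Limits.comp_zero, Limits.comp_zero,
    Limits.comp_zero, Limits.comp_zero] at e
  have e4 := congrArg (fun t => t ≫ (α_ T B M).hom ≫ T ◁ (β_ M B).inv) e
  simpa using e4

theorem qn_nd (n : ℕ) {A B : C} (F : A ⟶ pow M n ⊗ B)
    (h : pow M n ◁ F ≫ (α_ (pow M n) (pow M n) B).inv ≫ qn P n ▷ B = 0) : F = 0 := by
  induction n generalizing A B with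
  | zero =>
    have h0 : qn P 0 = (λ_ (𝟙_ C)).hom := Category.comp_id _
    rw [h0] at h
    have h1 : ∀ (F : A ⟶ 𝟙_ C ⊗ B), ((𝟙_ C) ◁ F) ≫ (α_ (𝟙_ C) (𝟙_ C) B).inv ≫
        (λ_ (𝟙_ C)).hom ▷ B = 0 → F = 0 := by
      intro F h
      have h2 : F = (λ_ A).inv ≫ (((𝟙_ C) ◁ F) ≫ (α_ (𝟙_ C) (𝟙_ C) B).inv ≫
        (λ_ (𝟙_ C)).hom ▷ B) := by monoidal
      rw [h2, h, Limits.comp_zero]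
    exact h1 F h
  | succ n ih =>
    refine nd_prod P.q (qn P n) (fun F => q_nd P F) (fun F => ih F) F ?_
    rw [← qn_succ]
    exact h

end T7
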