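import Pool.Agent.W_868bb7_h54.BipD
import Pool.Agent.W_868bb7_h16c.Rel

set_option autoImplicit false

/-!
# BIP: a bipartite relation between matchings is a relation between permutations
-/

namespace T7

open CategoryTheory MonoidalCategory Equiv Pool.Agent.W_MP_868bb7_ag

universe v u w

section comb

variable {K : Type*} [Field K]

/-- exchange of the two sides -/
theorem tr_comm_bipF {α : Type*} (y : Perm α → K) :
    tr (Equiv.sumComm α α) (T7n.bipF y) = T7n.bipF (fun s => y s⁻¹) := by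
  funext m
  have h1 : ∀ s : Perm α, PM.map (Equiv.sumComm α α).symm (T7n.bip s) = T7n.bip s⁻¹ := by
    intro s
    ext1 x
    rcases x with x | x
    · rfl
    · change Sum.inl (s x) = Sum.inl (s⁻¹⁻¹ x)
      rw [inv_inv]
  by_cases h : ∃ s, T7n.bip s = m
  · obtain ⟨s, rfl⟩ := h
    rw [tr_apply, h1, T7n.bipF_bip, T7n.bipF_bip]
  · rw [tr_apply, T7n.bipF_of_not _ _ h, T7n.bipF_of_not]
    rintro ⟨s, hs⟩
    apply h
    refine ⟨s⁻¹, ?_⟩
    have h2 : m = PM.map (Equiv.sumComm α α) (PM.map (Equiv.sumComm α α).symm m) :=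
      ((PM.map (Equiv.sumComm α α)).apply_symm_apply m).symm
    rw [h2, ← hs]
    have h3 := h1 s
    rw [Equiv.sumComm_symm] at h3
    exact h3.symm

/-- summation of a function of a bipartite combination -/
theorem sum_bipF {α A : Type*} [Fintype α] [DecidableEq α] [AddCommGroup A] [Module K A]
    (y : Perm α → K) (φ : PM (α ⊕ α) → A) :
    ∑ m, T7n.bipF y m • φ m = ∑ s, y s • φ (T7n.bip s) := by
  classical
  have h1 : ∑ m ∈ Finset.univ.image (T7n.bip : Perm α → PM (α ⊕ α)), T7n.bipF y m • φ m =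
      ∑ s, y s • φ (T7n.bip s) := by
    rw [Finset.sum_image (fun s _ t _ h => T7n.bip_inj h)]
    exact Finset.sum_congr rfl fun s _ => by rw [T7n.bipF_bip]
  rw [← h1]
  refine (Finset.sum_subset (Finset.subset_univ _) ?_).symm
  intro m _ hm
  rw [T7n.bipF_of_not, zero_smul]
  rintro ⟨s, hs⟩
  exact hm (Finset.mem_image.2 ⟨s, Finset.mem_univ _, hs⟩)

end comb

variable {C : Type u} [Category.{v} C] [MonoidalCategory C] [SymmetricCategory C]
  [Preadditive C] {K : Type w} [Field K] [Linear K C] [MonoidalPreadditive C]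
  [MonoidalLinear K C]
variable {M T : C} (P : Pairing M T)

/-- perfectness, for endomorphisms -/
theorem qn_nd_end (n : ℕ) (F : pow M n ⟶ pow M n) (h : pow M n ◁ F ≫ qn P n = 0) : F = 0 := by
  have h1 : F ≫ (ρ_ (pow M n)).inv = 0 := by
    apply qn_nd P n
    have h2 : (pow M n ◁ (F ≫ (ρ_ (pow M n)).inv)) ≫
        (α_ (pow M n) (pow M n) (𝟙_ C)).inv ≫ qn P n ▷ (𝟙_ C) =
        (pow M n ◁ F ≫ qn P n) ≫ (ρ_ (pow T n)).inv := by
      generalize qn P n = c
      monoidal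
    rw [h2, h, Limits.zero_comp]
  have h3 := congrArg (fun t => t ≫ (ρ_ (pow M n)).hom) h1
  simpa using h3

theorem bip_zero_inv {δ : K} (hδ : P.c ≫ P.q = δ • 𝟙 T)
    (hunit : ∀ a : K, a • 𝟙 (𝟙_ C) = 0 → a = 0) (n : ℕ) (y : Perm (Fin n) → K)
    (h : T7n.bipF y ∈ (Rel P hδ hunit).R (Fin n ⊕ Fin n)) :
    ∑ s, y s • act M n s⁻¹ = 0 := by
  rw [mem_Rel P hδ hunit n (ee n)] at h
  have h1 : ∑ m, (tr (ee n) (T7n.bipF y) : PM (Fin (2 * n)) → K) m • qm P n m =
      ∑ s, y s • qm P n (PM.map (ee n) (T7n.bip s)) := by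
    rw [← sum_bipF y (fun m => qm P n (PM.map (ee n) m))]
    rw [← (PM.map (ee n)).sum_comp]
    refine Finset.sum_congr rfl fun m _ => ?_
    rw [tr_apply, ← PM.map_symm, Equiv.symm_apply_apply]
  rw [h1] at h
  apply qn_nd_end P n
  have h2 := congrArg (fun t => unsep M n ≫ t) h
  simp only [Preadditive.comp_sum, Linear.comp_smul, unsep_qm, Limits.comp_zero] at h2
  have h3 : pow M n ◁ (∑ s, y s • act M n s⁻¹) ≫ qn P n =
      ∑ s, y s • (pow M n ◁ act M n s⁻¹ ≫ qn P n) := by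
    rw [whiskerLeft_sum, Preadditive.sum_comp]
    refine Finset.sum_congr rfl fun s _ => ?_
    rw [MonoidalLinear.whiskerLeft_smul, Linear.smul_comp]
  rw [h3]
  exact h2

/-- BIP -/
theorem bip_zero {δ : K} (hδ : P.c ≫ P.q = δ • 𝟙 T)
    (hunit : ∀ a : K, a • 𝟙 (𝟙_ C) = 0 → a = 0) (n : ℕ) (y : Perm (Fin n) → K)
    (h : T7n.bipF y ∈ (Rel P hδ hunit).R (Fin n ⊕ Fin n)) :
    ∑ s, y s • act M n s = 0 := by
  have h1 := (Rel P hδ hunit).map (Equiv.sumComm (Fin n) (Fin n)) h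
  rw [tr_comm_bipF] at h1
  have h2 := bip_zero_inv P hδ hunit n _ h1
  rw [← Equiv.sum_comp (Equiv.inv (Perm (Fin n)))] at h2
  simpa using h2

end T7
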