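import Pool.Agent.W_868bb7_h54.TypeStar
import Pool.Agent.W_868bb7_h16c.Rel
import Pool.Agent.W_868bb7_h16.ColC
import Pool.Agent.W_868bb7_h94.PhiZ

set_option autoImplicit false

/-!
# An object of type `(p | 2r)` with a pairing has a relation between matchings in degree
`(p + 1) (r + 1)`
-/

namespace T7

open CategoryTheory MonoidalCategory Equiv Pool.Agent.W_MP_868bb7_ag
open Pool.Agent.W_868bb7_h94 (G Star)

universe v u w

/-- averaging over a transitive action -/
theorem sum_PM_zero {K A : Type*} [Field K] [CharZero K] [AddCommGroup A] [Module K A] (r : ℕ)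
    (φ : PM (Fin (2 * r)) → A)
    (h : ∑ g : Perm (Fin (2 * r)), φ (PM.map g⁻¹ (ms r)) = 0) : ∑ m, φ m = 0 := by
  have h0 : ∑ g : Perm (Fin (2 * r)), φ (PM.map g (ms r)) = 0 := by
    rw [← h, ← Equiv.sum_comp (Equiv.inv (Perm (Fin (2 * r))))]
    rfl
  have h1 : ∀ m, ∑ g : Perm (Fin (2 * r)), φ (PM.map g m) = 0 := by
    intro m
    obtain ⟨σ, rfl⟩ := exists_map_ms r m
    rw [← h0, ← Equiv.sum_comp (Equiv.mulRight σ) (fun g => φ (PM.map g (ms r)))]
    rfl
  have h2 : ∑ m, ∑ g : Perm (Fin (2 * r)), φ (PM.map g m) = 0 :=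
    Finset.sum_eq_zero fun m _ => h1 m
  rw [Finset.sum_comm] at h2
  have h3 : ∀ g ∈ (Finset.univ : Finset (Perm (Fin (2 * r)))), ∑ m, φ (PM.map g m) = ∑ m, φ m :=
    fun g _ => Equiv.sum_comp (PM.map g) φ
  rw [Finset.sum_congr rfl h3, Finset.sum_const, ← Nat.cast_smul_eq_nsmul K] at h2
  refine (smul_eq_zero.1 h2).resolve_left ?_
  rw [Nat.cast_eq_zero, Finset.card_univ]
  exact Fintype.card_ne_zero

variable {C : Type u} [Category.{v} C] [MonoidalCategory C] [SymmetricCategory C]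
  [Preadditive C] {K : Type w} [Field K] [Linear K C] [MonoidalPreadditive C]
  [MonoidalLinear K C]
variable {M T : C} (P : Pairing M T)

/-- if all the star elements with constant `κ` are relations between the permutations, then every
combination of matchings on which all the `Y i` act by `κ` is a relation between the matchings -/
theorem ev_of_star [CharZero K] (r : ℕ) (κ : K)
    (hJ : ∀ x : G (2 * r) → K, Star κ x → ∑ g, x g • act M (2 * r) g = 0)
    (w : PM (Fin (2 * r)) → K) (hw : ∀ i, Y i w = κ • w) : ∑ m, w m • qm P r m = 0 := by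
  apply sum_PM_zero (K := K)
  have h1 := hJ _ (star_of_Y hw (ms r))
  have h2 := congrArg (fun t => t ≫ qs P r) h1
  simp only [Preadditive.sum_comp, Linear.smul_comp, Limits.zero_comp] at h2
  rw [← h2]
  refine Finset.sum_congr rfl fun g _ => ?_
  rw [qm_ms_map, inv_inv]

/-- the vector of type `(a, 2k)` on `Fin (a * (2 * k))`-/
theorem exists_Y_vector (K : Type*) [Field K] [CharZero K] (p r : ℕ) :
    ∃ w : PM (Fin (2 * ((p + 1) * (r + 1)))) → K, w ≠ 0 ∧
      ∀ i, Y i w = (((2 * r + 1 : ℕ) : K) - p) • w := by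
  have hcard : Fintype.card (Fin (p + 1) × (Bool × Fin (r + 1))) =
      Fintype.card (Fin (2 * ((p + 1) * (r + 1)))) := by
    simp only [Fintype.card_prod, Fintype.card_fin, Fintype.card_bool]
    ring
  obtain ⟨e⟩ := Fintype.card_eq.1 hcard
  have ht : IsType (Prod.fst : Fin (p + 1) × (Bool × Fin (r + 1)) → Fin (p + 1))
      (sym Prod.fst (zv K (Fin (p + 1)) (Fin (r + 1)))) := isType_zv
  have hf : ∀ s, (Finset.univ.filter
      (fun x : Fin (p + 1) × (Bool × Fin (r + 1)) => x.1 = s)).card = 2 * r + 2 := by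
    intro s
    have h1 : Finset.univ.filter (fun x : Fin (p + 1) × (Bool × Fin (r + 1)) => x.1 = s) =
        ({s} : Finset (Fin (p + 1))) ×ˢ (Finset.univ : Finset (Bool × Fin (r + 1))) := by
      ext ⟨x, y⟩
      simp [eq_comm]
    rw [h1, Finset.card_product, Finset.card_singleton, one_mul, Finset.card_univ,
      Fintype.card_prod, Fintype.card_bool, Fintype.card_fin]
    ring
  have h0 : sym Prod.fst (zv K (Fin (p + 1)) (Fin (r + 1))) ≠ 0 := by
    let m₀ : PM (Fin (p + 1) × (Bool × Fin (r + 1))) :=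
      ⟨fun x => (x.1, (!x.2.1, x.2.2)), fun x => by simp, fun x h => by
        have := congrArg (fun y => y.2.1) h
        simp at this⟩
    intro h
    have h1 := sym_zv_ne (K := K) m₀ (fun x => rfl)
    exact h1 (congrFun h m₀)
  refine ⟨tr e (sym Prod.fst (zv K (Fin (p + 1)) (Fin (r + 1)))), ?_, ?_⟩
  · intro h
    exact h0 ((tr e).map_eq_zero_iff.1 h)
  · intro i
    rw [Y_tr, ht.Y_eq (c := 2 * r + 2) (by omega) hf, map_smul, Fintype.card_fin]
    congr 1
    push_cast
    ring

/-- CONVERSE: `M` is a sum of an even part with `Λ^(p+1) = 0` and an odd part with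
`Sym^(2r+1) = 0`: then the matchings of `M^{⊗ 2g}`, `g = (p + 1) (r + 1)`, are dependent -/
theorem converse_match [CharZero K] (p r : ℕ) (f f' : M ⟶ M) (hff : f + f' = 𝟙 M)
    (hf : powMap f (p + 1) ≫ E true M (p + 1) = 0)
    (hf' : powMap f' (2 * r + 1) ≫ E false M (2 * r + 1) = 0) :
    ∃ w : PM (Fin (2 * ((p + 1) * (r + 1)))) → K, w ≠ 0 ∧
      ∑ m, w m • qm P ((p + 1) * (r + 1)) m = 0 := by
  obtain ⟨w, hw0, hw⟩ := exists_Y_vector K p r
  refine ⟨w, hw0, ev_of_star P _ _ ?_ w hw⟩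
  intro x hx
  have hn : 2 * ((p + 1) * (r + 1)) = (p + 1) * (2 * r + 1 + 1) := by ring
  have h1 : ∀ N : ℕ, N = (p + 1) * (2 * r + 1 + 1) → ∀ x : G N → K,
      Star (((2 * r + 1 : ℕ) : K) - p) x → ∑ g, x g • act M N g = 0 := by
    rintro N rfl x hx
    exact Pool.Agent.W_868bb7_h94.Phi_zero K p (2 * r + 1) f f' hff hf
      (Fd_mono' false f' _ _ (by omega) hf') x hx
  exact h1 _ hn x hx

end T7
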