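import Pool.Agent.W_868bb7_h16.Uniq
import Pool.Agent.W_868bb7_h94.DefsC

set_option autoImplicit false

/-!
# A vector of rectangular type is an eigenvector of all the star sums
-/

open Equiv Finset

namespace T7

open Pool.Agent.W_868bb7_h94 (G Star)

variable {K : Type*} [Field K]

/-- `Y i v = (c - a) v` for a vector of type `(a, c)` -/
theorem IsType.Y_eq {α S : Type*} [Fintype α] [DecidableEq α] [Fintype S] [DecidableEq S]
    {b : α → S} {v : PM α → K} (hv : IsType b v) {c : ℕ} (hc : 1 ≤ c)
    (hb : ∀ s, (univ.filter (fun x => b x = s)).card = c) (i : α) :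
    Y i v = ((c : K) - (Fintype.card S : K)) • v := by
  have h1 : Y i v = ∑ s : S, ∑ k ∈ (univ.erase i).filter (fun k => b k = s), tr (swap i k) v := by
    unfold Y
    exact (Finset.sum_fiberwise _ _ _).symm
  have h2 : ∀ s ∈ univ.erase (b i),
      ∑ k ∈ (univ.erase i).filter (fun k => b k = s), tr (swap i k) v = -v := by
    intro s hs
    have hs' : s ≠ b i := Finset.ne_of_mem_erase hs
    obtain ⟨i₀, hi₀⟩ : ∃ i₀, b i₀ = s := by
      have h3 : (univ.filter (fun x => b x = s)).Nonempty := by
        rw [← Finset.card_pos, hb]; exact hc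
      obtain ⟨x, hx⟩ := h3
      exact ⟨x, (Finset.mem_filter.1 hx).2⟩
    have h4 := hv.rel i₀ i (by rw [hi₀]; exact hs')
    have h5 : (univ.erase i).filter (fun k => b k = s) = univ.filter (fun k => b k = b i₀) := by
      ext k
      simp only [Finset.mem_filter, Finset.mem_erase, Finset.mem_univ, and_true, true_and, hi₀]
      constructor
      · exact fun h => h.2
      · exact fun h => ⟨fun h' => hs' (by rw [← h, h']), h⟩
    rw [h5]
    have h6 : ∑ k ∈ univ.filter (fun k => b k = b i₀), tr (swap i k) v =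
        ∑ k ∈ univ.filter (fun k => b k = b i₀), tr (swap k i) v :=
      Finset.sum_congr rfl fun k _ => by rw [swap_comm]
    rw [h6]
    exact (neg_eq_of_add_eq_zero_right h4).symm
  have h7 : ∑ k ∈ (univ.erase i).filter (fun k => b k = b i), tr (swap i k) v =
      ((c : K) - 1) • v := by
    have h8 : ∀ k ∈ (univ.erase i).filter (fun k => b k = b i), tr (swap i k) v = v := by
      intro k hk
      exact hv.inv i k (Finset.mem_filter.1 hk).2.symm
    have h9 : (univ.erase i).filter (fun k => b k = b i) =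
        (univ.filter (fun k => b k = b i)).erase i := by
      ext k
      simp only [Finset.mem_filter, Finset.mem_erase, Finset.mem_univ, and_true, true_and]
    have h10 : i ∈ univ.filter (fun k => b k = b i) := Finset.mem_filter.2 ⟨Finset.mem_univ _, rfl⟩
    rw [Finset.sum_congr rfl h8, Finset.sum_const, h9, Finset.card_erase_of_mem h10, hb,
      ← Nat.cast_smul_eq_nsmul K, Nat.cast_sub hc, Nat.cast_one]
  rw [h1, ← Finset.add_sum_erase _ _ (Finset.mem_univ (b i)), h7, Finset.sum_congr rfl h2,
    Finset.sum_const, Finset.card_erase_of_mem (Finset.mem_univ _), Finset.card_univ,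
    ← Nat.cast_smul_eq_nsmul K, Nat.cast_sub (Fintype.card_pos_iff.2 ⟨b i⟩), smul_neg,
    ← sub_eq_add_neg, ← sub_smul, Nat.cast_one]
  congr 1
  ring

/-- the fibres of `Fin a × Fin c → Fin a` have `c` elements -/
theorem card_fst (a c : ℕ) (s : Fin a) :
    (univ.filter (fun x : Fin a × Fin c => x.1 = s)).card = c := by
  have : univ.filter (fun x : Fin a × Fin c => x.1 = s) =
      ({s} : Finset (Fin a)) ×ˢ (univ : Finset (Fin c)) := by
    ext ⟨x, y⟩
    simp [eq_comm]
  rw [this, Finset.card_product, Finset.card_singleton, one_mul, Finset.card_univ,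
    Fintype.card_fin]

/-- the star sums of the translates of an element all of whose `Y i` act by `κ` -/
theorem star_of_Y {n : ℕ} {κ : K} {w : PM (Fin n) → K} (hw : ∀ i, Y i w = κ • w)
    (m : PM (Fin n)) : Star κ (fun g : G n => w (PM.map g⁻¹ m)) := by
  intro k g
  have h1 : ∀ j, w (PM.map (swap j k * g)⁻¹ m) =
      tr (swap (g⁻¹ k) (g⁻¹ j)) w (PM.map g⁻¹ m) := by
    intro j
    rw [tr_apply, symm_swap]
    have h2 : (swap j k * g)⁻¹ = swap (g⁻¹ k) (g⁻¹ j) * g⁻¹ := by
      rw [mul_inv_rev, swap_inv, swap_comm j k, Equiv.swap_apply_apply]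
      group
    rw [h2]
    rfl
  have h3 := congrFun (hw (g⁻¹ k)) (PM.map g⁻¹ m)
  rw [Pi.smul_apply, smul_eq_mul] at h3
  show ∑ j ∈ univ.erase k, w (PM.map (swap j k * g)⁻¹ m) = κ * w (PM.map g⁻¹ m)
  rw [← h3, Y, Finset.sum_apply, Finset.sum_congr rfl fun j _ => h1 j]
  refine Finset.sum_bij (fun j _ => g⁻¹ j) ?_ ?_ ?_ ?_
  · intro j hj
    rw [Finset.mem_erase] at hj ⊢
    exact ⟨fun h => hj.1 ((g⁻¹).injective h), Finset.mem_univ _⟩
  · intro j _ j' _ h
    exact (g⁻¹).injective h
  · intro j hj
    rw [Finset.mem_erase] at hj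
    refine ⟨g j, ?_, by simp⟩
    rw [Finset.mem_erase]
    refine ⟨fun h => hj.1 ?_, Finset.mem_univ _⟩
    rw [← h]; simp
  · intro j _
    rfl

/-- transport of `Y` -/
theorem Y_tr {α β : Type*} [Fintype α] [DecidableEq α] [Fintype β] [DecidableEq β]
    (e : α ≃ β) (i : β) (f : PM α → K) : Y i (tr e f) = tr e (Y (e.symm i) f) := by
  unfold Y
  rw [map_sum]
  refine Finset.sum_bij (fun k _ => e.symm k) ?_ ?_ ?_ ?_
  · intro j hj
    rw [Finset.mem_erase] at hj ⊢
    exact ⟨fun h => hj.1 (e.symm.injective h), Finset.mem_univ _⟩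
  · intro j _ j' _ h
    exact e.symm.injective h
  · intro j hj
    rw [Finset.mem_erase] at hj
    refine ⟨e j, ?_, by simp⟩
    rw [Finset.mem_erase]
    refine ⟨fun h => hj.1 ?_, Finset.mem_univ _⟩
    rw [← h]; simp
  · intro k _
    rw [tr_tr, tr_tr]
    have h1 : e.trans (swap i k) = (swap (e.symm i) (e.symm k)).trans e := by
      ext x
      simp only [Equiv.trans_apply]
      conv_rhs => rw [← e.symm_apply_apply x]
      rw [← e.symm.injective.map_swap, e.apply_symm_apply]
    rw [h1]

end T7
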